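import Pool.Agent.H337R2.LZ.Z
import Pool.Agent.H337R2.LZ.Z2
import Pool.Agent.H103R2.LM.M
import Pool.Agent.H340R2.LW

/-!
# `ζ(2) ζ(3)` and the rational span of `ζ(2), ζ(3), ζ(4), ζ(5)`

Let `S` be the set of the rational quadruples `(a, b, c, d)` with
`ζ(2) ζ(3) = a ζ(2) + b ζ(3) + c ζ(4) + d ζ(5)`; the conjecture says that `S` is empty. We show:

* no element of `S` has `b = d = 0`, with a polynomial lower bound for
  `|q ζ(2) ζ(3) - a ζ(2) - c ζ(4)|`;
* `S` has at most one element with `d = 0`, and it satisfies `b ≠ 0` and `5 a + 2 b c ≠ 0`;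
* `S` is empty, a point or a line, and if it is a line, then `ζ(3)` and `ζ(5)` are in `ℚ(π²)`.

The proof uses the linear independence of `1, ζ(2), ζ(3)` and its measure, which are theorems of the
repository this team started from, and the transcendence of `π`.
-/

set_option autoImplicit false

namespace Pool.Agent.Results.MP_524521_nt.ExceptionalSolutions

/-- `ζ(s) = ∑_{k ≥ 1} k^(-s)`. -/
noncomputable def zeta (s : ℕ) : ℝ := ∑' k : ℕ, 1 / ((k : ℝ) + 1) ^ s

/-- The rational quadruples `v` with `ζ(2) ζ(3) = v₀ ζ(2) + v₁ ζ(3) + v₂ ζ(4) + v₃ ζ(5)`. -/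
def IsSolution (v : Fin 4 → ℚ) : Prop :=
  zeta 2 * zeta 3 = v 0 * zeta 2 + v 1 * zeta 3 + v 2 * zeta 4 + v 3 * zeta 5

/-! ### Algebra -/

open Polynomial in
/-- a rational polynomial relation of degree three of a transcendental number is trivial -/
lemma cubic {x : ℝ} (hx : Transcendental ℚ x) {a b c d : ℚ}
    (h : (a : ℝ) + b * x + c * x ^ 2 + d * x ^ 3 = 0) : a = 0 ∧ b = 0 ∧ c = 0 ∧ d = 0 := by
  rw [transcendental_iff] at hx
  have h1 := hx (C a + C b * X + C c * X ^ 2 + C d * X ^ 3) (by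
    simp only [map_add, map_mul, map_pow, aeval_C, aeval_X, eq_ratCast]
    linarith)
  have h0 : ∀ n, (C a + C b * X + C c * X ^ 2 + C d * X ^ 3 : ℚ[X]).coeff n = 0 := fun n => by
    rw [h1, coeff_zero]
  refine ⟨?_, ?_, ?_, ?_⟩
  · have := h0 0; simpa [coeff_X, coeff_C, coeff_X_pow] using this
  · have := h0 1; simpa [coeff_X, coeff_C, coeff_X_pow] using this
  · have := h0 2; simpa [coeff_X, coeff_C, coeff_X_pow] using this
  · have := h0 3; simpa [coeff_X, coeff_C, coeff_X_pow] using this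

section

variable {x y z : ℝ} (hx : Transcendental ℚ x) (hy : ∀ a b : ℚ, y ≠ a + b * x)

/-- the solutions, with `x = ζ(2)`, `y = ζ(3)`, `z = ζ(5)` and `ζ(4) = 2/5 x²` -/
def Sol (x y z : ℝ) (v : Fin 4 → ℚ) : Prop :=
  x * y = v 0 * x + v 1 * y + v 2 * (2 / 5 * x ^ 2) + v 3 * z

include hx hy

/-- a direction with last coordinate zero -/
lemma dir_zero {p q : Fin 4 → ℚ} (hp : Sol x y z p) (hq : Sol x y z q) (hpq : p ≠ q)
    (h3 : p 3 = q 3) : p 3 ≠ 0 ∧ ∃ u v : ℚ, v ≠ 0 ∧ y = u * x + v * x ^ 2 ∧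
      z = (1 / p 3 : ℚ) * (v * x ^ 3 + (u - p 1 * v - 2 / 5 * p 2) * x ^ 2 - (p 0 + p 1 * u) * x) := by
  have e : ((q 0 - p 0 : ℚ) : ℝ) * x + ((q 1 - p 1 : ℚ) : ℝ) * y +
      ((2 / 5 * (q 2 - p 2) : ℚ) : ℝ) * x ^ 2 = 0 := by
    unfold Sol at hp hq
    push_cast
    rw [h3] at hp
    linarith
  have hb : q 1 - p 1 ≠ 0 := by
    intro hb
    rw [hb] at e
    have h1 := cubic hx (a := 0) (b := q 0 - p 0) (c := 2 / 5 * (q 2 - p 2)) (d := 0) (by
      push_cast at e ⊢
      linarith)
    apply hpq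
    funext i
    fin_cases i
    · simp only [Fin.zero_eta]; linarith [h1.2.1]
    · simp only [Fin.mk_one]; linarith
    · simp only [Fin.reduceFinMk]; linarith [h1.2.2.1]
    · simpa using h3
  have hbR : ((q 1 - p 1 : ℚ) : ℝ) ≠ 0 := by exact_mod_cast hb
  set β : ℚ := q 1 - p 1 with hβ
  set u : ℚ := -(q 0 - p 0) / β with hu
  set v : ℚ := -(2 / 5 * (q 2 - p 2)) / β with hv
  have ey : y = u * x + v * x ^ 2 := by
    have h1 : (u : ℝ) = -((q 0 - p 0 : ℚ) : ℝ) / (β : ℝ) := by rw [hu]; push_cast; ring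
    have h2 : (v : ℝ) = -((2 / 5 * (q 2 - p 2) : ℚ) : ℝ) / (β : ℝ) := by rw [hv]; push_cast; ring
    rw [h1, h2]
    generalize ((q 0 - p 0 : ℚ) : ℝ) = A at e ⊢
    generalize ((2 / 5 * (q 2 - p 2) : ℚ) : ℝ) = G at e ⊢
    field_simp
    linarith
  have hv0 : v ≠ 0 := by
    intro h0
    apply hy 0 u
    rw [ey, h0]
    push_cast
    ring
  have hd : p 3 ≠ 0 := by
    intro hd
    have h1 := cubic hx (a := 0) (b := -(p 0 + p 1 * u)) (c := u - p 1 * v - 2 / 5 * p 2) (d := v) (by
      unfold Sol at hp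
      rw [hd, ey] at hp
      push_cast at hp ⊢
      linarith)
    exact hv0 h1.2.2.2
  refine ⟨hd, u, v, hv0, ey, ?_⟩
  have hdR : ((p 3 : ℚ) : ℝ) ≠ 0 := by exact_mod_cast hd
  unfold Sol at hp
  rw [ey] at hp
  push_cast
  field_simp
  linarith

omit hy in
/-- a direction with last coordinate different from zero -/
lemma dir_ne {p q : Fin 4 → ℚ} (hp : Sol x y z p) (hq : Sol x y z q) (h3 : p 3 ≠ q 3) :
    ∃ A B C : ℚ, (x - B ≠ 0) ∧ y = (A * x + 2 / 5 * C * x ^ 2) / (x - B) ∧
      ∃ α β γ : ℚ, z = α * x + β * y + γ * x ^ 2 := by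
  set δ : ℚ := q 3 - p 3 with hδ
  have hδ0 : δ ≠ 0 := sub_ne_zero.2 (Ne.symm h3)
  have hδR : (δ : ℝ) ≠ 0 := by exact_mod_cast hδ0
  have e : ((q 0 - p 0 : ℚ) : ℝ) * x + ((q 1 - p 1 : ℚ) : ℝ) * y +
      ((q 2 - p 2 : ℚ) : ℝ) * (2 / 5 * x ^ 2) + (δ : ℝ) * z = 0 := by
    unfold Sol at hp hq
    rw [hδ]
    push_cast
    linarith
  set t : ℚ := p 3 / δ with ht
  have htδ : (t : ℝ) * δ = p 3 := by
    rw [ht]
    push_cast
    field_simp
  refine ⟨p 0 - t * (q 0 - p 0), p 1 - t * (q 1 - p 1), p 2 - t * (q 2 - p 2), ?_, ?_,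
    -(q 0 - p 0) / δ, -(q 1 - p 1) / δ, -(2 / 5 * (q 2 - p 2)) / δ, ?_⟩
  · intro h0
    apply hx
    have : x = ((p 1 - t * (q 1 - p 1) : ℚ) : ℝ) := by linarith
    rw [this]
    exact isAlgebraic_algebraMap _
  · rw [eq_div_iff]
    · unfold Sol at hp
      have h1 : (t : ℝ) * (((q 0 - p 0 : ℚ) : ℝ) * x + ((q 1 - p 1 : ℚ) : ℝ) * y +
        ((q 2 - p 2 : ℚ) : ℝ) * (2 / 5 * x ^ 2) + (δ : ℝ) * z) = 0 := by rw [e, mul_zero]
      have h2 : (t : ℝ) * ((δ : ℝ) * z) = p 3 * z := by rw [← mul_assoc, htδ]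
      push_cast at h1 ⊢
      linarith
    · intro h0
      apply hx
      have : x = ((p 1 - t * (q 1 - p 1) : ℚ) : ℝ) := by linarith
      rw [this]
      exact isAlgebraic_algebraMap _
  · push_cast at e ⊢
    field_simp
    linarith

/-- two different solutions: rationality, and all the solutions are on a line -/
lemma two {p q : Fin 4 → ℚ} (hp : Sol x y z p) (hq : Sol x y z q) (hpq : p ≠ q) :
    y ∈ Subfield.closure {x} ∧ z ∈ Subfield.closure {x} ∧
      ∀ r, Sol x y z r → ∃ t : ℚ, ∀ i, r i = p i + t * (q i - p i) := by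
  have hxm : x ∈ Subfield.closure {x} := Subfield.subset_closure (Set.mem_singleton x)
  have hQ : ∀ s : ℚ, (s : ℝ) ∈ Subfield.closure {x} := fun s => SubfieldClass.ratCast_mem _ s
  by_cases h3 : p 3 = q 3
  · obtain ⟨hd, u, v, hv, ey, ez⟩ := dir_zero hx hy hp hq hpq h3
    refine ⟨?_, ?_, ?_⟩
    · rw [ey]
      exact add_mem (mul_mem (hQ u) hxm) (mul_mem (hQ v) (pow_mem hxm 2))
    · rw [ez]
      refine mul_mem (hQ _) (sub_mem (add_mem (mul_mem (hQ v) (pow_mem hxm 3)) (mul_mem ?_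
        (pow_mem hxm 2))) (mul_mem ?_ hxm))
      · have := hQ (u - p 1 * v - 2 / 5 * p 2)
        push_cast at this
        exact this
      · have := hQ (p 0 + p 1 * u)
        push_cast at this
        exact this
    · -- all directions are proportional
      have key : ∀ r, Sol x y z r → r 3 = p 3 ∧ r 0 - p 0 = -(r 1 - p 1) * u ∧
          2 / 5 * (r 2 - p 2) = -(r 1 - p 1) * v := by
        intro r hr
        have hdR : ((p 3 : ℚ) : ℝ) ≠ 0 := by exact_mod_cast hd
        have h1 := cubic hx (a := 0)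
          (b := (r 0 - p 0) + (r 1 - p 1) * u - (r 3 - p 3) * (1 / p 3) * (p 0 + p 1 * u))
          (c := (r 1 - p 1) * v + 2 / 5 * (r 2 - p 2) +
            (r 3 - p 3) * (1 / p 3) * (u - p 1 * v - 2 / 5 * p 2))
          (d := (r 3 - p 3) * (1 / p 3) * v) (by
            unfold Sol at hp hr
            have h2 : (r 0 - p 0) * x + (r 1 - p 1) * y + (r 2 - p 2) * (2 / 5 * x ^ 2) +
              (r 3 - p 3) * z = 0 := by linarith
            rw [ez, ey] at h2
            push_cast at h2 ⊢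
            linarith)
        have h30 : r 3 - p 3 = 0 := by
          have h4 := h1.2.2.2
          rcases mul_eq_zero.1 h4 with h5 | h5
          · rcases mul_eq_zero.1 h5 with h6 | h6
            · exact h6
            · exact absurd h6 (one_div_ne_zero hd)
          · exact absurd h5 hv
        rw [h30] at h1
        refine ⟨by linarith, by linarith [h1.2.1], by linarith [h1.2.2.1]⟩
      intro r hr
      obtain ⟨-, k0, k2⟩ := key q hq
      have hb : q 1 - p 1 ≠ 0 := by
        intro hb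
        rw [hb] at k0 k2
        apply hpq
        funext i
        fin_cases i
        · simp only [Fin.zero_eta]; linarith
        · simp only [Fin.mk_one]; linarith
        · simp only [Fin.reduceFinMk]; linarith
        · simpa using h3
      obtain ⟨m3, m0, m2⟩ := key r hr
      refine ⟨(r 1 - p 1) / (q 1 - p 1), fun i => ?_⟩
      have ht : (r 1 - p 1) / (q 1 - p 1) * (q 1 - p 1) = r 1 - p 1 := by field_simp
      set t := (r 1 - p 1) / (q 1 - p 1) with htt
      fin_cases i
      · simp only [Fin.zero_eta]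
        rw [k0]
        have : t * (-(q 1 - p 1) * u) = -(t * (q 1 - p 1)) * u := by ring
        rw [this, ht]
        linarith
      · simp only [Fin.mk_one]
        linarith
      · simp only [Fin.reduceFinMk]
        have h5 : q 2 - p 2 = 5 / 2 * (-(q 1 - p 1) * v) := by linarith
        rw [h5]
        have : t * (5 / 2 * (-(q 1 - p 1) * v)) = 5 / 2 * (-(t * (q 1 - p 1)) * v) := by ring
        rw [this, ht]
        linarith
      · simp only [Fin.reduceFinMk]
        rw [m3, ← h3]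
        ring
  · obtain ⟨A, B, C, hB, ey, α, β, γ, ez⟩ := dir_ne hx hp hq h3
    have hym : y ∈ Subfield.closure {x} := by
      rw [ey]
      refine div_mem (add_mem (mul_mem (hQ A) hxm) (mul_mem ?_ (pow_mem hxm 2)))
        (sub_mem hxm (hQ B))
      have := hQ (2 / 5 * C)
      push_cast at this
      exact this
    refine ⟨hym, ?_, ?_⟩
    · rw [ez]
      exact add_mem (add_mem (mul_mem (hQ α) hxm) (mul_mem (hQ β) hym)) (mul_mem (hQ γ) (pow_mem hxm 2))
    · intro r hr
      have hδ : q 3 - p 3 ≠ 0 := sub_ne_zero.2 (Ne.symm h3)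
      set t : ℚ := (r 3 - p 3) / (q 3 - p 3) with ht
      have htd : t * (q 3 - p 3) = r 3 - p 3 := by rw [ht]; field_simp
      -- the point of the line with the same last coordinate
      have hs : Sol x y z (fun i => p i + t * (q i - p i)) := by
        unfold Sol at hp hq ⊢
        have h1 : (t : ℝ) * ((q 0 * x + q 1 * y + q 2 * (2 / 5 * x ^ 2) + q 3 * z) -
          (p 0 * x + p 1 * y + p 2 * (2 / 5 * x ^ 2) + p 3 * z)) = 0 := by
          rw [← hp, ← hq, sub_self, mul_zero]
        push_cast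
        linarith
      by_cases hrs : r = fun i => p i + t * (q i - p i)
      · exact ⟨t, fun i => by rw [hrs]⟩
      · exfalso
        -- then the direction `r - s` has last coordinate zero, and `ζ(5)` is cubic
        obtain ⟨hd, u, v, hv, ey', ez'⟩ := dir_zero hx hy hr hs hrs (by
          show r 3 = p 3 + t * (q 3 - p 3)
          rw [htd]
          ring)
        have hdR : ((r 3 : ℚ) : ℝ) ≠ 0 := by exact_mod_cast hd
        have h1 := cubic hx (a := 0)
          (b := (q 0 - p 0) + (q 1 - p 1) * u - (q 3 - p 3) * (1 / r 3) * (r 0 + r 1 * u))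
          (c := (q 1 - p 1) * v + 2 / 5 * (q 2 - p 2) +
            (q 3 - p 3) * (1 / r 3) * (u - r 1 * v - 2 / 5 * r 2))
          (d := (q 3 - p 3) * (1 / r 3) * v) (by
            unfold Sol at hp hq
            have h2 : (q 0 - p 0) * x + (q 1 - p 1) * y + (q 2 - p 2) * (2 / 5 * x ^ 2) +
              (q 3 - p 3) * z = 0 := by linarith
            rw [ez', ey'] at h2
            push_cast at h2 ⊢
            linarith)
        have h4 := h1.2.2.2
        rcases mul_eq_zero.1 h4 with h5 | h5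
        · rcases mul_eq_zero.1 h5 with h6 | h6
          · exact hδ h6
          · exact one_div_ne_zero hd h6
        · exact hv h5

/-- solutions with last coordinate zero -/
lemma three {p : Fin 4 → ℚ} (hp : Sol x y z p) (h3 : p 3 = 0) :
    p 1 ≠ 0 ∧ 5 * p 0 + 2 * p 1 * p 2 ≠ 0 := by
  have hx0 : x ≠ 0 := by
    rintro rfl
    exact hx (isAlgebraic_zero)
  unfold Sol at hp
  rw [h3] at hp
  constructor
  · intro h1
    rw [h1] at hp
    apply hy (p 0) (2 / 5 * p 2)
    have h2 : x * (y - (p 0 + 2 / 5 * p 2 * x)) = 0 := by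
      push_cast at hp
      linarith
    rcases mul_eq_zero.1 h2 with h | h
    · exact absurd h hx0
    · push_cast
      linarith
  · intro h1
    have h0 : p 0 = -(2 / 5 * p 1 * p 2) := by linarith
    rw [h0] at hp
    have hxb : x - p 1 ≠ 0 := by
      intro h
      apply hx
      have : x = ((p 1 : ℚ) : ℝ) := by linarith
      rw [this]
      exact isAlgebraic_algebraMap _
    apply hy 0 (2 / 5 * p 2)
    have h2 : (x - p 1) * (y - 2 / 5 * p 2 * x) = 0 := by
      push_cast at hp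
      linarith
    rcases mul_eq_zero.1 h2 with h | h
    · exact absurd h hxb
    · push_cast
      linarith

end

/-! ### The zeta values -/

lemma zeta_two : zeta 2 = Real.pi ^ 2 / 6 := Pool.Agent.LZ.Z2_value

lemma zeta_four : zeta 4 = 2 / 5 * zeta 2 ^ 2 := by
  have h1 := (hasSum_nat_add_iff' 1).2 hasSum_zeta_four
  rw [Finset.sum_range_one] at h1
  simp only [Nat.cast_zero, ne_eq, OfNat.ofNat_ne_zero, not_false_eq_true, zero_pow, div_zero,
    sub_zero] at h1
  have h2 : HasSum (fun n : ℕ => 1 / ((n : ℝ) + 1) ^ 4) (Real.pi ^ 4 / 90) := by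
    refine h1.congr_fun fun n => ?_
    push_cast
    rfl
  rw [zeta_two]
  unfold zeta
  rw [h2.tsum_eq]
  ring

lemma tr : Transcendental ℚ (zeta 2) := by
  rw [zeta_two]
  intro h
  apply Pool.Agent.H340R2.LW.transcendental_pi.pow (n := 2) (by norm_num)
  have h6 : IsAlgebraic ℚ ((6 : ℚ) : ℝ) := isAlgebraic_algebraMap (6 : ℚ)
  have : Real.pi ^ 2 = Real.pi ^ 2 / 6 * ((6 : ℚ) : ℝ) := by
    push_cast
    ring
  rw [this]
  exact h.mul h6

lemma indep (a b : ℚ) : zeta 3 ≠ a + b * zeta 2 := by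
  intro h
  have h1 := Pool.Agent.LZ.Z3_linind
  rw [Fintype.linearIndependent_iff] at h1
  have h2 := h1 ![a, b, -1] (by
    rw [Fin.sum_univ_three]
    simp only [Matrix.cons_val_zero, Matrix.cons_val_one, Matrix.cons_val, Rat.smul_def]
    have e2 : Pool.Agent.H337R2.zr 2 = zeta 2 := rfl
    have e3 : Pool.Agent.H337R2.zr 3 = zeta 3 := rfl
    rw [e2, e3, h]
    push_cast
    ring) 2
  simp at h2

lemma sol_iff (v : Fin 4 → ℚ) : IsSolution v ↔ Sol (zeta 2) (zeta 3) (zeta 5) v := by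
  unfold IsSolution Sol
  rw [zeta_four]

lemma closure_eq : Subfield.closure {zeta 2} = Subfield.closure {Real.pi ^ 2} := by
  have h6 : (6 : ℝ) ∈ Subfield.closure {zeta 2} := by
    simp
  have h6' : (6 : ℝ) ∈ Subfield.closure {Real.pi ^ 2} := by
    simp
  apply le_antisymm
  · rw [Subfield.closure_le, Set.singleton_subset_iff, zeta_two]
    exact div_mem (Subfield.subset_closure (Set.mem_singleton _)) h6'
  · rw [Subfield.closure_le, Set.singleton_subset_iff]
    have : Real.pi ^ 2 = zeta 2 * 6 := by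
      rw [zeta_two]
      ring
    rw [this]
    exact mul_mem (Subfield.subset_closure (Set.mem_singleton _)) h6

/-- **Special cases and the structure of the possible exceptions.**
(1) `ζ(2) ζ(3)` is not in the span of `ζ(2)` and `ζ(4)`, with a polynomial lower bound for the linear
forms in `ζ(2) ζ(3), ζ(2), ζ(4)`; (2) there is at most one solution with `d = 0`, and it satisfies
`b ≠ 0` and `5 a + 2 b c ≠ 0`; (3) if there are two different solutions `p`, `q`, then `ζ(3)` and
`ζ(5)` are in `ℚ(π²)` and all the solutions are on the line through `p` and `q`. -/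
theorem result :
    (∃ c : ℝ, 0 < c ∧ ∃ κ : ℝ, 0 < κ ∧ ∀ q a b : ℤ, q ≠ 0 →
      c * (max |(q : ℝ)| |(b : ℝ)|) ^ (-κ) ≤ |q * (zeta 2 * zeta 3) - a * zeta 2 - b * zeta 4|) ∧
    (∀ a b c : ℚ, zeta 2 * zeta 3 = a * zeta 2 + b * zeta 3 + c * zeta 4 →
      b ≠ 0 ∧ 5 * a + 2 * b * c ≠ 0 ∧
      ∀ a' b' c' : ℚ, zeta 2 * zeta 3 = a' * zeta 2 + b' * zeta 3 + c' * zeta 4 →
        a' = a ∧ b' = b ∧ c' = c) ∧
    (∀ p q : Fin 4 → ℚ, IsSolution p → IsSolution q → p ≠ q →
      zeta 3 ∈ Subfield.closure {Real.pi ^ 2} ∧ zeta 5 ∈ Subfield.closure {Real.pi ^ 2} ∧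
      ∀ r : Fin 4 → ℚ, IsSolution r → ∃ t : ℚ, ∀ i, r i = p i + t * (q i - p i)) := by
  refine ⟨?_, ?_, ?_⟩
  · obtain ⟨c, hc, κ, hκ, h⟩ := Pool.Agent.LM.measure_d
    have hz : 0 < zeta 2 := by
      rw [zeta_two]
      positivity
    refine ⟨zeta 2 / 5 * (c * 5 ^ (-κ)), by positivity, κ, hκ, fun q a b hq => ?_⟩
    set H : ℝ := max |(q : ℝ)| |(b : ℝ)| with hH
    have hq1 : (1 : ℝ) ≤ |(q : ℝ)| := by
      have : (1 : ℤ) ≤ |q| := Int.one_le_abs hq
      exact_mod_cast this
    have hH1 : 1 ≤ H := hq1.trans (le_max_left _ _)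
    have hbH : |(b : ℝ)| ≤ H := le_max_right _ _
    have hqH : |(q : ℝ)| ≤ H := le_max_left _ _
    have h1 := h (-(5 * a)) (-(2 * b)) (5 * q) (5 * H) (by linarith) (by omega)
      (by push_cast; rw [abs_neg, abs_mul, abs_of_pos (by norm_num : (0 : ℝ) < 2)]; linarith)
      (by push_cast; rw [abs_mul, abs_of_pos (by norm_num : (0 : ℝ) < 5)]; linarith)
    rw [Real.mul_rpow (by norm_num) (by linarith)] at h1
    have e2 : Pool.Agent.H337R2.zr 2 = zeta 2 := rfl
    have e3 : Pool.Agent.H337R2.zr 3 = zeta 3 := rfl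
    rw [e2, e3] at h1
    have e : (q : ℝ) * (zeta 2 * zeta 3) - a * zeta 2 - b * zeta 4 = zeta 2 / 5 *
        (((-(5 * a) : ℤ) : ℝ) + ((-(2 * b) : ℤ) : ℝ) * zeta 2 + ((5 * q : ℤ) : ℝ) * zeta 3) := by
      rw [zeta_four]
      push_cast
      ring
    rw [e, abs_mul, abs_of_pos (by positivity : 0 < zeta 2 / 5)]
    calc zeta 2 / 5 * (c * 5 ^ (-κ)) * H ^ (-κ) = zeta 2 / 5 * (c * (5 ^ (-κ) * H ^ (-κ))) := by ring
      _ ≤ _ := mul_le_mul_of_nonneg_left h1 (by positivity)
  · intro a b c h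
    have hs : ∀ a b c : ℚ, zeta 2 * zeta 3 = a * zeta 2 + b * zeta 3 + c * zeta 4 →
        Sol (zeta 2) (zeta 3) (zeta 5) ![a, b, c, 0] := by
      intro a b c h
      rw [← sol_iff]
      unfold IsSolution
      simp only [Matrix.cons_val_zero, Matrix.cons_val_one, Matrix.cons_val]
      push_cast
      linarith
    have h1 := three tr indep (hs a b c h) (by simp)
    refine ⟨by simpa using h1.1, by simpa using h1.2, fun a' b' c' h' => ?_⟩
    by_contra hne
    have h2 := (dir_zero tr indep (hs a b c h) (hs a' b' c' h') (fun he => hne (by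
      have e0 := congrFun he 0
      have e1 := congrFun he 1
      have e2 := congrFun he 2
      simp only [Matrix.cons_val_zero, Matrix.cons_val_one, Matrix.cons_val] at e0 e1 e2
      exact ⟨e0.symm, e1.symm, e2.symm⟩)) (by simp)).1
    simp at h2
  · intro p q hp hq hpq
    rw [sol_iff] at hp hq
    have h1 := two tr indep hp hq hpq
    rw [← closure_eq]
    exact ⟨h1.1, h1.2.1, fun r hr => h1.2.2 r ((sol_iff r).1 hr)⟩

end Pool.Agent.Results.MP_524521_nt.ExceptionalSolutions
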