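import Pool.Agent.V11210.ZZ.Gen

/-!
# Near relations between `ζ(2)ζ(3), ζ(2), ζ(3), ζ(4)` and arbitrary numbers, in particular `ζ(5)`

At every scale `X` the integer vectors `(q, a, b, c, e)` of norm at most `X` for which
`q ζ(2)ζ(3) - a ζ(2) - b ζ(3) - c ζ(4) - e_1 z_1 - … - e_r z_r` is smaller than `c₀ X^(-κ)` span a space of
dimension at most `r + 1`, uniformly in the real numbers `z_1, …, z_r`.  For `r = 1`, `z_1 = ζ(5)` these are
the approximate solutions of the equation of the problem.  Without the `z_i` (`e = 0`) they are all multiples of one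
vector, with `b ≠ 0` and `5 q a + 2 b c ≠ 0`.

The proof combines the measure of linear independence of `1, ζ(2), ζ(3)` and the transcendence measure of `π`
(theorems of the repository this team started from) with elimination.
-/

set_option autoImplicit false

namespace Pool.Agent.Results.MP_524521_nt.NearRelations

/-- `ζ(s) = ∑_{k ≥ 1} k^(-s)`. -/
noncomputable def zeta (s : ℕ) : ℝ := ∑' k : ℕ, 1 / ((k : ℝ) + 1) ^ s

/-- the vectors `((q, a, b, c), (e_1, …, e_r))` of integers -/
abbrev Vec (r : ℕ) : Type := (Fin 4 → ℤ) × (Fin r → ℤ)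

/-- `q ζ(2) ζ(3) - a ζ(2) - b ζ(3) - c ζ(4) - e_1 z_1 - … - e_r z_r` for `v = ((q, a, b, c), e)` -/
noncomputable def value {r : ℕ} (z : Fin r → ℝ) (v : Vec r) : ℝ :=
  v.1 0 * (zeta 2 * zeta 3) - v.1 1 * zeta 2 - v.1 2 * zeta 3 - v.1 3 * zeta 4 - ∑ i, v.2 i * z i

/-- the near relations at the scale `X`: all coordinates at most `X`, and value smaller than `c / X ^ κ` in absolute value -/
def near {r : ℕ} (c : ℝ) (κ : ℕ) (z : Fin r → ℝ) (X : ℝ) : Set (Vec r) :=
  {v | (∀ i, |(v.1 i : ℝ)| ≤ X) ∧ (∀ i, |(v.2 i : ℝ)| ≤ X) ∧ |value z v| < c / X ^ κ}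

/-- an integer vector as a rational vector -/
def toRat {r : ℕ} (v : Vec r) : (Fin 4 → ℚ) × (Fin r → ℚ) := (fun i => v.1 i, fun i => v.2 i)

/-- the dimension of the rational space spanned by a set of integer vectors -/
noncomputable def dim {r : ℕ} (S : Set (Vec r)) : ℕ := Module.finrank ℚ (Submodule.span ℚ (toRat '' S))

lemma dim_le {r n : ℕ} (S : Set (Vec r))
    (h : ∀ V : Fin (n + 1) → Vec r, (∀ j, V j ∈ S) → ∃ l : Fin (n + 1) → ℤ, l ≠ 0 ∧ ∑ j, l j • V j = 0) : dim S ≤ n := by
  by_contra hcon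
  push Not at hcon
  unfold dim at hcon
  obtain ⟨f, hf, -, hli⟩ := Submodule.exists_fun_fin_finrank_span_eq ℚ (toRat '' S)
  choose g hg hgf using hf
  have hle : n + 1 ≤ Module.finrank ℚ (Submodule.span ℚ (toRat '' S)) := hcon
  obtain ⟨l, hl, hl0⟩ := h (fun j => g (Fin.castLE hle j)) (fun j => hg _)
  have hli' : LinearIndependent ℚ (fun j : Fin (n + 1) => f (Fin.castLE hle j)) :=
    hli.comp _ (Fin.castLE_injective hle)
  rw [Fintype.linearIndependent_iff] at hli'
  apply hl
  funext j
  have h1 := hli' (fun j => (l j : ℚ)) (by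
    have e : ∀ j : Fin (n + 1), ((l j : ℤ) : ℚ) • f (Fin.castLE hle j) = toRat (l j • g (Fin.castLE hle j)) := by
      intro j
      rw [← hgf]
      unfold toRat
      refine Prod.ext ?_ ?_
      · funext i
        simp
      · funext i
        simp
    have hsum : ∀ s : Finset (Fin (n + 1)), ∑ j ∈ s, toRat (l j • g (Fin.castLE hle j)) = toRat (∑ j ∈ s, l j • g (Fin.castLE hle j)) := by
      intro s
      classical
      induction s using Finset.induction_on with
      | empty => exact Prod.ext (funext fun i => by simp [toRat]) (funext fun i => by simp [toRat])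
      | insert a s ha ih =>
        rw [Finset.sum_insert ha, Finset.sum_insert ha, ih]
        unfold toRat
        refine Prod.ext ?_ ?_
        · funext i
          simp
        · funext i
          simp
    rw [Finset.sum_congr rfl (fun j _ => e j), hsum, hl0]
    exact Prod.ext (funext fun i => by simp [toRat]) (funext fun i => by simp [toRat])) j
  have h2 : ((l j : ℤ) : ℚ) = 0 := h1
  exact_mod_cast h2

/-- **Near relations.** (1) For every `r` there are `c > 0` and `κ` such that for all real numbers `z_1, …, z_r` and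
every `X ≥ 1` the near relations between `ζ(2)ζ(3), ζ(2), ζ(3), ζ(4), z_1, …, z_r` at the scale `X` span a
space of dimension at most `r + 1`.  For `r = 1` and `z_1 = ζ(5)` the exact relations among them are the solutions of the
equation of the problem with common denominator `q` (and the relations between `ζ(2), …, ζ(5)`, for `q = 0`).
(2) There are `c > 0` and `κ` such that for every `X ≥ 1` the near relations `(q, a, b, c)` between
`ζ(2)ζ(3), ζ(2), ζ(3), ζ(4)` at the scale `X` are proportional, and those different from zero satisfy `b ≠ 0` and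
`5 q a + 2 b c ≠ 0`. -/
theorem result :
    (∀ r : ℕ, ∃ c : ℝ, 0 < c ∧ ∃ κ : ℕ, ∀ z : Fin r → ℝ, ∀ X : ℝ, 1 ≤ X → dim (near c κ z X) ≤ r + 1) ∧
    ∃ c : ℝ, 0 < c ∧ ∃ κ : ℕ, ∀ z : Fin 0 → ℝ, ∀ X : ℝ, 1 ≤ X → ∀ v ∈ near c κ z X,
      (v ≠ 0 → v.1 2 ≠ 0 ∧ 5 * v.1 0 * v.1 1 + 2 * v.1 2 * v.1 3 ≠ 0) ∧
      ∀ w ∈ near c κ z X, ∀ i j, v.1 i * w.1 j = v.1 j * w.1 i := by
  refine ⟨fun r => ?_, Pool.Agent.V11210.ZZ.base⟩
  obtain ⟨c, hc, κ, h⟩ := Pool.Agent.V11210.ZZ.gen r
  exact ⟨c, hc, κ, fun z X hX => dim_le _ fun V hV => h z X hX V hV⟩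

end Pool.Agent.Results.MP_524521_nt.NearRelations
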