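import Mathlib
import Pool.Agent.V11015.FS.LinT
import Pool.Agent.TH456.TM.Close
import Pool.Agent.TH456.TM.E
import Pool.Agent.W472.AC.EMeas2

/-!
# Finite-state prediction of the digits of rational linear forms in `1, ζ(2), ζ(3), ζ(4), ζ(2) ζ(3)`

A machine with finitely many states reads the digits of a number in some base one after the other and
announces before each digit a guess, which depends on its state only.

Let `t` be any real number, `|t| ≤ T`, for example `ζ(3)`, and let `A, P` and `A', P'` be integer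
polynomials of degree at most `n` and height at most `H`. Call the two pairs related if
`(m A + k) P' = (m A' + l) P` for some integers `m ≠ 0`, `k`, `l`. If they are not related, machines with
`S`, `S'` states which read the digits of `(A(π) + t P(π)) / d` in base `b` and those of
`(A'(π) + t P'(π)) / d'` in base `b'` make on the first `N` and `N'` digits together at least
`(log min (N log b, N' log b') - log (S log b + S' log b' + log H)) / log μ - C` wrong guesses, where
`μ` depends only on `n` and `C` only on `n, T`. The same holds with `e` in place of `π` and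
`μ = 2 (2 n + 1 + η)`.

For `t = ζ(3)`, `A = s + a X ^ 2 + c X ^ 4`, `P = b + g X ^ 2` these numbers are the rational linear forms in
`1, ζ(2), ζ(3), ζ(4), ζ(2) ζ(3)`.
-/

set_option autoImplicit false

namespace Pool.Agent.Results.MP_524521_nt.PredictionOfForms

open Finset Polynomial Pool.Agent

/-- the `i`-th digit of `x` after the point in base `b` -/
noncomputable def digit (b : ℕ) (x : ℝ) (i : ℕ) : ℤ := ⌊x * (b : ℝ) ^ i⌋ % (b : ℤ)

/-- A machine with the set of states `Q`: the transition function, the guess announced in each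
state, and the initial state. -/
structure Machine (Q : Type) where
  next : Q → ℤ → Q
  guess : Q → ℤ
  start : Q

/-- The state of the machine after it has read the first `i` digits of `x` in base `b`. -/
noncomputable def Machine.state {Q : Type} (M : Machine Q) (b : ℕ) (x : ℝ) : ℕ → Q
  | 0 => M.start
  | i + 1 => M.next (M.state b x i) (digit b x (i + 1))

/-- The number of the wrong guesses for the first `n` digits of `x` in base `b`: the guess for the
digit number `i + 1` is announced when the machine has read the first `i` digits. -/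
noncomputable def Machine.errors {Q : Type} (M : Machine Q) (b : ℕ) (x : ℝ) (n : ℕ) : ℕ :=
  ((range n).filter (fun i => M.guess (M.state b x i) ≠ digit b x (i + 1))).card

theorem state_eq {Q : Type} (M : Machine Q) (b : ℕ) (x : ℝ) (i : ℕ) :
    M.state b x i = V60.FSP.st M.next (V60.FSP.dg b x) M.start 0 i := by
  induction i with
  | zero => rfl
  | succ i ih =>
    rw [V60.FSP.st_step, ← ih, Nat.zero_add]
    rfl

theorem errors_eq {Q : Type} [Fintype Q] (M : Machine Q) (b : ℕ) (x : ℝ) (n : ℕ) :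
    M.errors b x n = V60.FSP.err M.next M.guess (V60.FSP.dg b x) M.start 0 n := by
  unfold Machine.errors V60.FSP.err
  congr 1
  apply Finset.filter_congr
  intro i _
  rw [state_eq, Nat.zero_add]
  rfl

/-- the number `(A(θ) + t P(θ)) / d` -/
noncomputable def value (θ t : ℝ) (A P : ℤ[X]) (d : ℕ) : ℝ := (aeval θ A + t * aeval θ P) / d

/-- `A` and `P` are integer polynomials of degree at most `n` with coefficients of absolute value at most
`H`, and `1 ≤ d ≤ H` -/
def Small (n : ℕ) (H : ℝ) (A P : ℤ[X]) (d : ℕ) : Prop :=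
  (A.natDegree ≤ n ∧ ∀ i, |(A.coeff i : ℝ)| ≤ H) ∧ (P.natDegree ≤ n ∧ ∀ i, |(P.coeff i : ℝ)| ≤ H) ∧
    1 ≤ d ∧ (d : ℝ) ≤ H

/-- `(A + u) P' = (A' + v) P` for some rational numbers `u, v` -/
def Related (A P A' P' : ℤ[X]) : Prop :=
  ∃ m k l : ℤ, m ≠ 0 ∧ (C m * A + C k) * P' = (C m * A' + C l) * P

/-- The bound for the errors: if machines with `S` and `S'` states read the digits of the numbers
`(A(θ) + t P(θ)) / d` in base `b` and `(A'(θ) + t P'(θ)) / d'` in base `b'`, the pairs `A, P` and `A', P'`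
being not related, then they make on the first `N` and `N'` digits together at least
`(log min (N log b, N' log b') - log (S log b + S' log b' + log H)) / log μ - K` wrong guesses. -/
def Bound (n : ℕ) (μ K θ t : ℝ) : Prop :=
  ∀ (A P A' P' : ℤ[X]) (d d' : ℕ) (H : ℝ), 1 ≤ H → Small n H A P d → Small n H A' P' d' →
    ¬ Related A P A' P' → ∀ b b' : ℕ, 2 ≤ b → 2 ≤ b' →
    ∀ (Q Q' : Type) [Fintype Q] [Fintype Q'] (M : Machine Q) (M' : Machine Q') (N N' : ℕ),
    1 ≤ N → 1 ≤ N' →
    (Real.log (min (N * Real.log b) (N' * Real.log b')) -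
      Real.log (Fintype.card Q * Real.log b + Fintype.card Q' * Real.log b' + Real.log H)) /
      Real.log μ - K ≤
      (M.errors b (value θ t A P d) N + M'.errors b' (value θ t A' P' d') N' : ℝ)

/-- In some base `b` some machine with `S` states, `S log b ≤ σ`, makes less than `E` errors on the
first `N` digits of `x` for some `N` with `N log b ≥ Λ`. -/
def Predicted (x Λ σ E : ℝ) : Prop :=
  ∃ (b : ℕ) (Q : Type) (_ : Fintype Q) (M : Machine Q) (N : ℕ),
    2 ≤ b ∧ Λ ≤ N * Real.log b ∧ Fintype.card Q * Real.log b ≤ σ ∧ (M.errors b x N : ℝ) < E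

/-- the threshold -/
noncomputable def threshold (μ K H Λ σ : ℝ) : ℝ :=
  ((Real.log Λ - Real.log (2 * σ + Real.log H)) / Real.log μ - K) / 2

/-- `ζ(3) = ∑ 1 / n³` -/
noncomputable def zeta3 : ℝ := ∑' n : ℕ, 1 / ((n : ℝ) + 1) ^ 3

theorem bound_of_meas {θ : ℝ} {n : ℕ} {μ c : ℝ} (hμ : 0 ≤ μ) (hc : 0 < c)
    (hθ : V11015.FS.PMeas θ (2 * n) μ c) (T : ℝ) (hT : 0 ≤ T) : ∃ K : ℝ,
    ∀ t : ℝ, |t| ≤ T → Bound n (2 * (μ + 1)) K θ t := by
  obtain ⟨K, hK, h⟩ := V11015.FS.lin_core hμ hc hθ T hT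
  obtain ⟨A0, _, hA⟩ := V11015.FS.shape_two (μ + 1) K (by linarith) (by linarith) hK
  refine ⟨A0, fun t htT A P A' P' d d' H hH hP hP' hpar b b' hb hb' Q Q' _ _ M M' N N' hN hN' => ?_⟩
  rw [errors_eq, errors_eq]
  refine hA (value θ t A P d) (value θ t A' P' d') H hH ?_ b b' hb hb' Q Q' M.next M.guess M.start
    M'.next M'.guess M'.start N N' hN hN'
  intro q q' p p' hq hq' S h1 h2
  have h3 := h t htT H hH A P A' P' hP.1 hP.2.1 hP'.1 hP'.2.1 (fun m k l hm hkl =>
    hpar ⟨m, k, l, hm, hkl⟩) d d' hP.2.2.1 hP'.2.2.1 hP.2.2.2 hP'.2.2.2 q q' q' q (q * q') p p'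
    hq hq' hq' hq rfl (mul_comm _ _) S h1 h2
  push_cast at h3
  exact h3

theorem related_of_predicted {n : ℕ} {μ K θ t : ℝ} (hμ : 1 < μ) (h : Bound n μ K θ t) {H Λ σ : ℝ}
    (hH : 1 ≤ H) (hΛ : 0 < Λ) {A P A' P' : ℤ[X]} {d d' : ℕ} (hP : Small n H A P d)
    (hP' : Small n H A' P' d')
    (hp : Predicted (value θ t A P d) Λ σ (threshold μ K H Λ σ))
    (hq : Predicted (value θ t A' P' d') Λ σ (threshold μ K H Λ σ)) : Related A P A' P' := by
  by_contra hpar
  obtain ⟨b, Q, inst, M, N, hb, hN, hS, hM⟩ := hp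
  obtain ⟨b', Q', inst', M', N', hb', hN', hS', hM'⟩ := hq
  have hlb := V11015.FS.log_base_pos hb
  have hlb' := V11015.FS.log_base_pos hb'
  have hlμ := Real.log_pos hμ
  have hlH : 0 ≤ Real.log H := Real.log_nonneg hH
  have hN1 : 1 ≤ N := by
    rcases Nat.eq_zero_or_pos N with h | h
    · rw [h, Nat.cast_zero, zero_mul] at hN
      linarith
    · exact h
  have hN1' : 1 ≤ N' := by
    rcases Nat.eq_zero_or_pos N' with h | h
    · rw [h, Nat.cast_zero, zero_mul] at hN'
      linarith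
    · exact h
  have : Nonempty Q := ⟨M.start⟩
  have hSp : (0 : ℝ) < Fintype.card Q := by exact_mod_cast Fintype.card_pos (α := Q)
  have hSp' : (0 : ℝ) ≤ Fintype.card Q' := Nat.cast_nonneg _
  have h1 := h A P A' P' d d' H hH hP hP' hpar b b' hb hb' Q Q' M M' N N' hN1 hN1'
  have h2 : Real.log Λ ≤ Real.log (min (N * Real.log b) (N' * Real.log b')) :=
    Real.log_le_log hΛ (le_min hN hN')
  have h3 : Real.log (Fintype.card Q * Real.log b + Fintype.card Q' * Real.log b' + Real.log H) ≤
      Real.log (2 * σ + Real.log H) := by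
    apply Real.log_le_log
    · have := mul_nonneg hSp' hlb'.le
      have := mul_pos hSp hlb
      linarith
    · linarith
  have h4 : (Real.log Λ - Real.log (2 * σ + Real.log H)) / Real.log μ ≤
      (Real.log (min (N * Real.log b) (N' * Real.log b')) -
      Real.log (Fintype.card Q * Real.log b + Fintype.card Q' * Real.log b' + Real.log H)) /
      Real.log μ := div_le_div_of_nonneg_right (by linarith) hlμ.le
  unfold threshold at hM hM'
  linarith

theorem meas_pi (n : ℕ) : ∃ μ c : ℝ, 0 ≤ μ ∧ 0 < c ∧ V11015.FS.PMeas Real.pi n μ c := by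
  obtain ⟨κ, c, hκ, hc, h⟩ := TH456.TM.measT_pi n
  refine ⟨κ, c, hκ, hc, fun P hP hPn H hH hPH => ?_⟩
  rw [TH456.TM.abs_aeval]
  exact h P hP hPn H hH hPH

/-- the bounds and their consequence for the well predicted members -/
theorem family {θ : ℝ} {n : ℕ} {μ c : ℝ} (hμ : 0 ≤ μ) (hc : 0 < c)
    (hθ : V11015.FS.PMeas θ (2 * n) μ c) (T : ℝ) (hT : 0 ≤ T) : ∃ K : ℝ,
    ∀ t : ℝ, |t| ≤ T → Bound n (2 * (μ + 1)) K θ t ∧
      ∀ H Λ σ : ℝ, 1 ≤ H → 0 < Λ → ∀ (A P A' P' : ℤ[X]) (d d' : ℕ), Small n H A P d →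
        Small n H A' P' d' → Predicted (value θ t A P d) Λ σ (threshold (2 * (μ + 1)) K H Λ σ) →
        Predicted (value θ t A' P' d') Λ σ (threshold (2 * (μ + 1)) K H Λ σ) → Related A P A' P' := by
  obtain ⟨K, h⟩ := bound_of_meas hμ hc hθ T hT
  exact ⟨K, fun t htT => ⟨h t htT, fun H Λ σ hH hΛ A P A' P' d d' hP hP' hp hp' =>
    related_of_predicted (by linarith) (h t htT) hH hΛ hP hP' hp hp'⟩⟩

/-- the form `(s + a π ^ 2 + c π ^ 4 + (b + g π ^ 2) ζ(3)) / D` -/
structure Form where
  s : ℤ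
  a : ℤ
  c : ℤ
  b : ℤ
  g : ℤ
  D : ℕ

/-- its value -/
noncomputable def Form.number (F : Form) : ℝ :=
  (F.s + F.a * Real.pi ^ 2 + F.c * Real.pi ^ 4 + (F.b + F.g * Real.pi ^ 2) * zeta3) / F.D

/-- its size -/
def Form.Size (F : Form) (H : ℝ) : Prop :=
  |(F.s : ℝ)| ≤ H ∧ |(F.a : ℝ)| ≤ H ∧ |(F.c : ℝ)| ≤ H ∧ |(F.b : ℝ)| ≤ H ∧ |(F.g : ℝ)| ≤ H ∧
    1 ≤ F.D ∧ (F.D : ℝ) ≤ H

/-- the two equations for related forms that do not contain `u, v` -/
def Form.Close (F G : Form) : Prop := F.c * G.g = G.c * F.g ∧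
  F.c * G.b + F.a * G.g = G.c * F.b + G.a * F.g

/-- the polynomials of a form -/
noncomputable def Form.A (F : Form) : ℤ[X] := C F.s + C F.a * X ^ 2 + C F.c * X ^ 4

/-- the polynomials of a form -/
noncomputable def Form.P (F : Form) : ℤ[X] := C F.b + C F.g * X ^ 2

theorem coeff_A (F : Form) (i : ℕ) : F.A.coeff i =
    (if i = 0 then F.s else 0) + (if i = 2 then F.a else 0) + (if i = 4 then F.c else 0) := by
  unfold Form.A
  rw [coeff_add, coeff_add, coeff_C, coeff_C_mul, coeff_C_mul, coeff_X_pow, coeff_X_pow]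
  split_ifs <;> simp

theorem coeff_P (F : Form) (i : ℕ) : F.P.coeff i =
    (if i = 0 then F.b else 0) + (if i = 2 then F.g else 0) := by
  unfold Form.P
  rw [coeff_add, coeff_C, coeff_C_mul, coeff_X_pow]
  split_ifs <;> simp

theorem small_form {F : Form} {H : ℝ} (hH : 1 ≤ H) (h : F.Size H) : Small 4 H F.A F.P F.D := by
  obtain ⟨hs, ha, hc, hb, hg, hD, hD'⟩ := h
  refine ⟨⟨?_, fun i => ?_⟩, ⟨?_, fun i => ?_⟩, hD, hD'⟩
  · rw [natDegree_le_iff_coeff_eq_zero]
    intro i hi
    rw [coeff_A, if_neg (by omega), if_neg (by omega), if_neg (by omega)]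
    simp
  · rw [coeff_A]
    by_cases h0 : i = 0
    · subst h0
      simpa using hs
    · by_cases h2 : i = 2
      · subst h2
        simpa using ha
      · by_cases h4 : i = 4
        · subst h4
          simpa using hc
        · rw [if_neg h0, if_neg h2, if_neg h4]
          simp
          linarith
  · rw [natDegree_le_iff_coeff_eq_zero]
    intro i hi
    rw [coeff_P, if_neg (by omega), if_neg (by omega)]
    simp
  · rw [coeff_P]
    by_cases h0 : i = 0
    · subst h0
      simpa using hb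
    · by_cases h2 : i = 2
      · subst h2
        simpa using hg
      · rw [if_neg h0, if_neg h2]
        simp
        linarith

theorem value_form (F : Form) : value Real.pi zeta3 F.A F.P F.D = F.number := by
  unfold value Form.number Form.A Form.P
  congr 1
  simp only [map_add, map_mul, map_pow, aeval_X, eq_intCast, map_intCast]
  ring

theorem close_of_related {F G : Form} (h : Related F.A F.P G.A G.P) : F.Close G := by
  obtain ⟨m, k, l, hm, h⟩ := h
  have e1 : (C m * F.A + C k) * G.P = C (m * F.c * G.g) * X ^ 6 +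
      C (m * (F.c * G.b + F.a * G.g)) * X ^ 4 + C ((m * F.s + k) * G.g + m * F.a * G.b) * X ^ 2 +
      C ((m * F.s + k) * G.b) := by
    unfold Form.A Form.P
    simp only [C_add, C_mul]
    ring
  have e2 : (C m * G.A + C l) * F.P = C (m * G.c * F.g) * X ^ 6 +
      C (m * (G.c * F.b + G.a * F.g)) * X ^ 4 + C ((m * G.s + l) * F.g + m * G.a * F.b) * X ^ 2 +
      C ((m * G.s + l) * F.b) := by
    unfold Form.A Form.P
    simp only [C_add, C_mul]
    ring
  rw [e1, e2] at h
  have h6 := congrArg (fun P : ℤ[X] => P.coeff 6) h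
  have h4 := congrArg (fun P : ℤ[X] => P.coeff 4) h
  simp only [coeff_add, coeff_C_mul, coeff_X_pow, coeff_C] at h6 h4
  norm_num at h6 h4
  refine ⟨?_, ?_⟩
  · have : m * (F.c * G.g) = m * (G.c * F.g) := by linarith
    exact mul_left_cancel₀ hm this
  · rcases h4 with h4 | h4
    · exact h4
    · exact absurd h4 hm

/-- **Finite-state prediction of the digits of forms in `1, ζ(2), ζ(3), ζ(4), ζ(2) ζ(3)`.**
(1) For every `n` there is `μ > 1` and for every `T` there is `K` such that for all real `t`, `|t| ≤ T`, the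
bound for the errors holds for the numbers `(A(π) + t P(π)) / d`, and for all `H ≥ 1`, `Λ > 0`, `σ` any two
pairs `A, P` whose numbers are predicted with less than
`((log Λ - log (2 σ + log H)) / log μ - K) / 2` errors are related.
(2) The same with `e` in place of `π` and `μ = 2 (2 n + 1 + η)`, for all `η > 0`.
(3) There are `μ > 1`, `K` such that for all forms `F, G` of size at most `H` in `1, π², ζ(3), π⁴, π² ζ(3)`
with `c_F g_G ≠ c_G g_F` or `c_F b_G + a_F g_G ≠ c_G b_F + a_G g_F` not both are predicted with less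
than this number of errors. -/
theorem result :
    (∀ n : ℕ, ∃ μ : ℝ, 1 < μ ∧ ∀ T : ℝ, 0 ≤ T → ∃ K : ℝ, ∀ t : ℝ, |t| ≤ T →
      Bound n μ K Real.pi t ∧
      ∀ H Λ σ : ℝ, 1 ≤ H → 0 < Λ → ∀ (A P A' P' : ℤ[X]) (d d' : ℕ), Small n H A P d →
        Small n H A' P' d' → Predicted (value Real.pi t A P d) Λ σ (threshold μ K H Λ σ) →
        Predicted (value Real.pi t A' P' d') Λ σ (threshold μ K H Λ σ) → Related A P A' P') ∧
    (∀ (n : ℕ) (η T : ℝ), 0 < η → 0 ≤ T → ∃ K : ℝ, ∀ t : ℝ, |t| ≤ T →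
      Bound n (2 * (2 * n + 1 + η)) K (Real.exp 1) t ∧
      ∀ H Λ σ : ℝ, 1 ≤ H → 0 < Λ → ∀ (A P A' P' : ℤ[X]) (d d' : ℕ), Small n H A P d →
        Small n H A' P' d' →
        Predicted (value (Real.exp 1) t A P d) Λ σ (threshold (2 * (2 * n + 1 + η)) K H Λ σ) →
        Predicted (value (Real.exp 1) t A' P' d') Λ σ (threshold (2 * (2 * n + 1 + η)) K H Λ σ) →
          Related A P A' P') ∧
    (∃ μ K : ℝ, 1 < μ ∧ ∀ H Λ σ : ℝ, 1 ≤ H → 0 < Λ → ∀ F G : Form, F.Size H → G.Size H →
      Predicted F.number Λ σ (threshold μ K H Λ σ) →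
      Predicted G.number Λ σ (threshold μ K H Λ σ) → F.Close G) := by
  have hpi : ∀ n : ℕ, ∃ μ : ℝ, 1 < μ ∧ ∀ T : ℝ, 0 ≤ T → ∃ K : ℝ, ∀ t : ℝ, |t| ≤ T →
      Bound n μ K Real.pi t ∧
      ∀ H Λ σ : ℝ, 1 ≤ H → 0 < Λ → ∀ (A P A' P' : ℤ[X]) (d d' : ℕ), Small n H A P d →
        Small n H A' P' d' → Predicted (value Real.pi t A P d) Λ σ (threshold μ K H Λ σ) →
        Predicted (value Real.pi t A' P' d') Λ σ (threshold μ K H Λ σ) → Related A P A' P' := by
    intro n
    obtain ⟨μ, c, hμ, hc, h⟩ := meas_pi (2 * n)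
    exact ⟨2 * (μ + 1), by linarith, fun T hT => family hμ hc h T hT⟩
  refine ⟨hpi, fun n η T hη hT => ?_, ?_⟩
  · obtain ⟨c, hc, h⟩ := W472.AC.e_measP (2 * n) η hη
    have h1 := family (θ := Real.exp 1) (n := n) (μ := ((2 * n : ℕ) : ℝ) + η) (by positivity) hc h T hT
    have e1 : ((2 * n : ℕ) : ℝ) + η + 1 = 2 * n + 1 + η := by
      push_cast
      ring
    rw [e1] at h1
    exact h1
  · obtain ⟨μ, hμ, h⟩ := hpi 4
    obtain ⟨K, hK⟩ := h |zeta3| (abs_nonneg _)
    refine ⟨μ, K, hμ, fun H Λ σ hH hΛ F G hF hG hp hp' => ?_⟩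
    rw [← value_form] at hp hp'
    exact close_of_related ((hK zeta3 le_rfl).2 H Λ σ hH hΛ F.A F.P G.A G.P F.D G.D
      (small_form hH hF) (small_form hH hG) hp hp')

end Pool.Agent.Results.MP_524521_nt.PredictionOfForms
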