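import Pool.Agent.Helper264.NT.NearExp

/-!
# Products and spans of zeta values at all algebraic points near almost every point

The question is whether `ζ(2) ζ(3)` is in the rational span of `ζ(2), …, ζ(5)`.

Let `n ≥ 1`. There is a set `E` in `ℂ ^ n` of Hausdorff dimension at most `2 n - 2` such that for all `z` outside of `E` whose
coordinates have real parts greater than `1`, all number fields `K ⊂ ℂ`, all degrees `d`, all `A` and ALL exponents `w > 0`
(arbitrarily small) there are `B` and `T₀` such that for all `T ≥ T₀`, at ALL tuples `s` in `K ^ n` of height at most `T` with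
`|s_j - z_j| ≤ T ^ (-w)`, the numbers `π, ζ(s_1), …, ζ(s_n)` have no relation over `K` of partial degrees at most `d` and height
at most `T ^ A`, not even an approximate one: all values are greater than `T ^ (-B)`. In particular (`n = 4`, `d = 1`) the product
`ζ(s_1) ζ(s_2)` is not a linear combination of `ζ(s_1), …, ζ(s_4)` with coefficients in `K` of height at most `T ^ A`. For small
`w` there are many such rational `s` for all large `T`.

Proof: the exceptional tuples lie on `C T ^ ε` hypersurfaces of degree at most `D` (`Pool.Agent.Y771.KF.stdK` of helper771 and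
helper124), and the points near such hypersurfaces form a set of small dimension (uniform coverings of the zeros of polynomials
of bounded degree, `Pool.Agent.Helper264.NT.mainK`). The function `ζ(s)` is transcendental over `ℂ(s)` since `2 ^ s (ζ(s) - 1)`
tends to `1` for real `s → ∞`.
-/

set_option autoImplicit false

open Height Filter Topology Asymptotics
open scoped ENNReal

namespace Pool.Agent.Results.MP_524521_nt.ZetaNearEveryPoint

lemma lim1 : Tendsto (fun x : ℝ => (2 : ℂ) ^ (x : ℂ) * (riemannZeta x - 1)) atTop (𝓝 1) := by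
  set f : ℕ → ℂ := fun m => if m ≤ 1 then 0 else 1 with hf
  have hval : ∀ x : ℝ, 1 < x → LSeriesSummable f x ∧ LSeries f x = riemannZeta x - 1 := by
    intro x hx
    have hx' : 1 < (x : ℂ).re := by simpa using hx
    have h1 : LSeriesSummable (1 : ℕ → ℂ) x := LSeriesSummable_one_iff.2 hx'
    have h2 : LSeriesSummable LSeries.delta x := LSeriesSummable_of_bounded_of_one_lt_re (m := 1) (fun n _ => by
      unfold LSeries.delta
      split_ifs <;> simp) hx'
    have hcongr : ∀ {n : ℕ}, n ≠ 0 → ((1 : ℕ → ℂ) - LSeries.delta) n = f n := by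
      intro n hn
      rw [Pi.sub_apply, Pi.one_apply, hf]
      unfold LSeries.delta
      by_cases h : n = 1
      · simp [h]
      · have : ¬ n ≤ 1 := by omega
        simp [h, this]
    refine ⟨(LSeriesSummable_congr (x : ℂ) hcongr).1 (h1.sub h2), ?_⟩
    rw [← LSeries_congr hcongr (x : ℂ), LSeries_sub h1 h2, LSeries_one_eq_riemannZeta hx', LSeries_delta, Pi.one_apply]
  have habs : LSeries.abscissaOfAbsConv f < ⊤ := by
    refine lt_of_le_of_lt (hval 2 (by norm_num)).1.abscissaOfAbsConv_le ?_
    exact EReal.coe_lt_top _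
  have h := LSeries.tendsto_cpow_mul_atTop (f := f) (n := 1) (fun m hm => by simp [hf, hm]) habs
  have h1 : f (1 + 1) = 1 := by simp [hf]
  rw [h1] at h
  refine h.congr' ?_
  filter_upwards [eventually_gt_atTop 1] with x hx
  rw [(hval x hx).2]
  norm_num

lemma two_ne (x : ℂ) : (2 : ℂ) ^ x ≠ 0 := by
  rw [Complex.cpow_def_of_ne_zero two_ne_zero]
  exact Complex.exp_ne_zero _

lemma lim0 : Tendsto (fun x : ℝ => ((2 : ℂ) ^ (x : ℂ))⁻¹) atTop (𝓝 0) := by
  rw [tendsto_zero_iff_norm_tendsto_zero]
  have h1 : ∀ x : ℝ, ‖((2 : ℂ) ^ (x : ℂ))⁻¹‖ = ((2 : ℝ) ^ x)⁻¹ := by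
    intro x
    rw [norm_inv]
    congr 1
    have := Complex.norm_cpow_eq_rpow_re_of_pos (x := 2) (by norm_num) (x : ℂ)
    simpa using this
  simp only [h1]
  exact (tendsto_rpow_atTop_of_base_gt_one 2 (by norm_num)).inv_tendsto_atTop

lemma zeta_lim : Tendsto (fun x : ℝ => riemannZeta x) atTop (𝓝 1) := by
  have h1 := (lim0.mul lim1).add_const 1
  rw [zero_mul, zero_add] at h1
  refine h1.congr fun x => ?_
  rw [← mul_assoc, inv_mul_cancel₀ (two_ne _)]
  ring

open Polynomial in
/-- evaluation of a polynomial in two variables at `x` and `ζ(x)` -/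
noncomputable def ev (x : ℝ) : ℂ[X][X] →+* ℂ := Polynomial.eval₂RingHom (Polynomial.evalRingHom (x : ℂ)) (riemannZeta x)

open Polynomial in
lemma ev_bound (q : ℂ[X][X]) : ∃ N : ℕ, (fun x : ℝ => ev x q) =O[atTop] fun x => x ^ N := by
  have hup : ∀ a b : ℕ, a ≤ b → (fun x : ℝ => x ^ a) =O[atTop] fun x => x ^ b := by
    intro a b hab
    refine IsBigO.of_bound 1 ?_
    filter_upwards [eventually_ge_atTop 1] with t ht
    rw [one_mul, norm_pow, norm_pow, Real.norm_of_nonneg (by linarith)]
    exact pow_le_pow_right₀ ht hab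
  have hcoe : ∀ a : ℂ[X], ∃ N : ℕ, (fun x : ℝ => a.eval (x : ℂ)) =O[atTop] fun x => x ^ N := by
    intro a
    induction a using Polynomial.induction_on' with
    | add p q hp hq =>
      obtain ⟨a, ha⟩ := hp
      obtain ⟨b, hb⟩ := hq
      refine ⟨max a b, ?_⟩
      simp only [Polynomial.eval_add]
      exact (ha.trans (hup _ _ (le_max_left _ _))).add (hb.trans (hup _ _ (le_max_right _ _)))
    | monomial n c =>
      refine ⟨n, ?_⟩
      simp only [Polynomial.eval_monomial]
      refine IsBigO.of_bound ‖c‖ (Eventually.of_forall fun x => ?_)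
      rw [norm_mul, norm_pow, Complex.norm_real, norm_pow]
  induction q using Polynomial.induction_on' with
  | add p q hp hq =>
    obtain ⟨a, ha⟩ := hp
    obtain ⟨b, hb⟩ := hq
    refine ⟨max a b, ?_⟩
    simp only [map_add]
    exact (ha.trans (hup _ _ (le_max_left _ _))).add (hb.trans (hup _ _ (le_max_right _ _)))
  | monomial n c =>
    obtain ⟨N, hN⟩ := hcoe c
    refine ⟨N, ?_⟩
    have h1 : ∀ x : ℝ, ev x (Polynomial.monomial n c) = c.eval (x : ℂ) * riemannZeta x ^ n := by
      intro x
      simp [ev]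
    simp only [h1]
    have h2 : (fun x : ℝ => riemannZeta x ^ n) =O[atTop] fun _ => (1 : ℝ) := (zeta_lim.pow n).isBigO_one ℝ
    simpa using hN.mul h2

open Polynomial in
lemma ev_indep (p : ℂ[X][X]) (hp : ∀ᶠ x : ℝ in atTop, ev x p = 0) : p = 0 := by
  by_contra hne
  obtain ⟨q, hq, hnd⟩ := Polynomial.exists_eq_pow_rootMultiplicity_mul_and_not_dvd p hne (1 : ℂ[X])
  have hc : q.eval 1 ≠ 0 := fun h => hnd (Polynomial.dvd_iff_isRoot.2 h)
  obtain ⟨r, hr⟩ := Polynomial.X_sub_C_dvd_sub_C_eval (a := (1 : ℂ[X])) (p := q)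
  have hX : ∀ x : ℝ, ev x (X - C (1 : ℂ[X])) = riemannZeta x - 1 := by
    intro x
    simp [ev]
  have hD : ∀ᶠ x : ℝ in atTop, riemannZeta x - 1 ≠ 0 := by
    have h1 := lim1.eventually_ne (show (1 : ℂ) ≠ 0 by norm_num)
    filter_upwards [h1] with x hx h2
    exact hx (by rw [h2, mul_zero])
  have hq0 : ∀ᶠ x : ℝ in atTop, ev x q = 0 := by
    filter_upwards [hp, hD] with x h1 h2
    rw [hq, map_mul, map_pow, hX] at h1
    exact (mul_eq_zero.1 h1).resolve_left (pow_ne_zero _ h2)
  have hev : ∀ x : ℝ, ev x q - (q.eval 1).eval (x : ℂ) = (riemannZeta x - 1) * ev x r := by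
    intro x
    have h1 := congrArg (ev x) hr
    rw [map_sub, map_mul, hX] at h1
    rw [← h1]
    congr 1
    simp [ev]
  have hsmall : Tendsto (fun x : ℝ => (riemannZeta x - 1) * ev x r) atTop (𝓝 0) := by
    obtain ⟨N, hN⟩ := ev_bound r
    have h1 : Tendsto (fun x : ℝ => ((2 : ℂ) ^ (x : ℂ))⁻¹ * ev x r) atTop (𝓝 0) := by
      have h2 : (fun x : ℝ => ev x r) =o[atTop] fun x : ℝ => (2 : ℂ) ^ (x : ℂ) := by
        refine hN.trans_isLittleO ?_
        have h3 := isLittleO_pow_exp_pos_mul_atTop N (Real.log_pos (by norm_num : (1 : ℝ) < 2))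
        refine h3.trans_isBigO (IsBigO.of_bound 1 (Eventually.of_forall fun x => ?_))
        have h4 := Complex.norm_cpow_eq_rpow_re_of_pos (x := 2) (by norm_num) (x : ℂ)
        rw [one_mul, Real.norm_of_nonneg (Real.exp_pos _).le]
        have h5 : ‖(2 : ℂ) ^ (x : ℂ)‖ = (2 : ℝ) ^ x := by simpa using h4
        rw [h5, Real.rpow_def_of_pos (by norm_num)]
      have h6 := h2.tendsto_div_nhds_zero
      refine h6.congr fun x => ?_
      rw [div_eq_mul_inv, mul_comm]
    have h7 := lim1.mul h1
    rw [mul_zero] at h7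
    refine h7.congr fun x => ?_
    have := two_ne (x : ℂ)
    field_simp
  have hlim : Tendsto (fun x : ℝ => (q.eval 1).eval (x : ℂ)) atTop (𝓝 0) := by
    have h1 := hsmall.neg
    rw [neg_zero] at h1
    refine h1.congr' ?_
    filter_upwards [hq0] with x hx
    rw [← hev, hx, zero_sub, neg_neg]
  by_cases hdeg : 0 < (q.eval 1).degree
  · have h1 := Polynomial.tendsto_norm_atTop (q.eval 1) hdeg (l := atTop) (z := fun x : ℝ => (x : ℂ)) (by
      simp only [Complex.norm_real]
      exact tendsto_norm_atTop_atTop)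
    have h2 := hlim.norm
    rw [norm_zero] at h2
    exact not_tendsto_nhds_of_tendsto_atTop h1 0 h2
  · rw [not_lt] at hdeg
    have h1 := Polynomial.eq_C_of_degree_le_zero hdeg
    rw [h1] at hlim hc
    simp only [Polynomial.eval_C] at hlim
    have h2 := tendsto_nhds_unique hlim tendsto_const_nhds
    exact hc (by rw [← h2, map_zero])

/-- the half plane of absolute convergence -/
def half : Set ℂ := {s | 1 < s.re}

lemma half_open : IsOpen half := isOpen_lt continuous_const Complex.continuous_re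

lemma half_preconn : IsPreconnected half := (convex_halfSpace_re_gt 1).isPreconnected

lemma zeta_an : AnalyticOnNhd ℂ riemannZeta half := by
  refine DifferentiableOn.analyticOnNhd (fun s hs => ?_) half_open
  have hs' : 1 < s.re := hs
  have h1 : s ≠ 1 := fun h => by
    rw [h, Complex.one_re] at hs'
    exact lt_irrefl _ hs'
  exact (differentiableAt_riemannZeta h1).differentiableWithinAt

lemma zeta_indep : Pool.Agent.Y771.KF.AIndepS (fun _ : Unit => riemannZeta) half := by
  classical
  intro P hP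
  set p := MvPolynomial.pUnitAlgEquiv (Polynomial ℂ) (MvPolynomial.optionEquivRight ℂ Unit P) with hp
  have hev : ∀ x : ℝ, ev x p = MvPolynomial.eval (fun o : Option Unit => o.elim (x : ℂ) fun _ => riemannZeta x) P := by
    intro x
    have h1 := Pool.Agent.Helper264.NT.eval_right P (x : ℂ) fun _ => riemannZeta x
    rw [← h1, hp, ev, Polynomial.coe_eval₂RingHom]
    exact MvPolynomial.eval₂_pUnitAlgEquiv (a := fun _ => riemannZeta x)
  have h0 : p = 0 := ev_indep p (by
    filter_upwards [eventually_gt_atTop 1] with x hx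
    rw [hev]
    exact hP (x : ℂ) (by simpa [half] using hx))
  have h1 := (map_eq_zero_iff _ (MvPolynomial.pUnitAlgEquiv (Polynomial ℂ)).injective).1 h0
  exact (map_eq_zero_iff _ (MvPolynomial.optionEquivRight ℂ Unit).injective).1 h1

/-- the numbers `π, ζ(s_1), …, ζ(s_n)` -/
noncomputable def numbers {n : ℕ} (s : Fin n → ℂ) (x : Option (Fin n)) : ℂ := x.elim (Real.pi : ℂ) fun j => riemannZeta (s j)

/-- every nonzero polynomial in `n + 1` variables with coefficients in `K` of height at most `T ^ A`, of degree at most `d` in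
each variable, takes at the numbers `π, ζ(s_1), …, ζ(s_n)` a value of absolute value greater than `T ^ (-B)` -/
def Measure {n : ℕ} (K : IntermediateField ℚ ℂ) [NumberField K] (d : ℕ) (A B T : ℝ) (s : Fin n → K) : Prop :=
  ∀ P : MvPolynomial (Option (Fin n)) K, P ≠ 0 → (∀ i, P.degreeOf i ≤ d) → (∀ e, mulHeight₁ (P.coeff e) ≤ T ^ A) →
    T ^ (-B) < ‖MvPolynomial.eval₂ (algebraMap K ℂ) (numbers fun j => (s j : ℂ)) P‖

/-- the renaming of the variables -/
def ren (n : ℕ) : Option (Fin n) ≃ (Fin n × Unit) ⊕ Unit where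
  toFun o := o.elim (Sum.inr ()) fun j => Sum.inl (j, ())
  invFun := Sum.elim (fun c => some c.1) fun _ => none
  left_inv o := by cases o <;> rfl
  right_inv o := by rcases o with ⟨j, u⟩ | u <;> rfl

/-- **Theorem.** Let `n ≥ 1`. There is a subset `E` of `ℂ ^ n` of Hausdorff dimension at most `2 (n - 1)` such that for all `z`
outside of `E` whose coordinates have real parts greater than `1`, all number fields `K ⊂ ℂ`, all `d`, `A` and `w > 0` there are
`B` and `T₀` such that for all `T ≥ T₀` and all `n`-tuples `s` of elements of `K` of height at most `T` with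
`|s_j - z_j| ≤ T ^ (-w)` the numbers `π, ζ(s_1), …, ζ(s_n)` have the property `Measure`. -/
theorem result (n : ℕ) (hn : 1 ≤ n) :
    ∃ E : Set (Fin n → ℂ), dimH E ≤ ((2 * (n - 1) : ℕ) : ℝ≥0∞) ∧ ∀ z ∉ E, (∀ j, 1 < (z j).re) →
      ∀ (K : IntermediateField ℚ ℂ) [NumberField K] (d : ℕ) (A w : ℝ), 0 < w → ∃ B T₀ : ℝ, ∀ T ≥ T₀,
        ∀ s : Fin n → K, (∀ j, mulHeight₁ (s j) ≤ T ∧ ‖(s j : ℂ) - z j‖ ≤ T ^ (-w)) → Measure K d A B T s := by
  classical
  have hnn : Nonempty (Fin n) := ⟨⟨0, hn⟩⟩
  obtain ⟨E, hE1, hE2⟩ := Pool.Agent.Helper264.NT.mainK (𝕜 := ℂ) (X := Fin n) (RingHom.id ℂ) (fun _ => rfl)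
    (fun _ (_ : Unit) => riemannZeta) (fun _ : Unit => Real.pi) (fun _ => half) (fun _ => half_open) (fun _ => half_preconn)
    (fun _ _ => zeta_an) (fun _ => zeta_indep) Pool.Agent.Y124.goodXi_pi
  refine ⟨E, by simpa using hE1, fun z hz hz1 K _ d A w hw => ?_⟩
  obtain ⟨B, T0, h⟩ := hE2 z hz hz1 K d A w hw
  refine ⟨B, T0, fun T hT s hs => ?_⟩
  refine Pool.Agent.Helper264.NT.norel_rename (ren n) (algebraMap K ℂ) (fun _ (_ : Unit) => riemannZeta)
    (fun _ : Unit => Real.pi) d A B T s (h T hT s hs) (fun k => (hs k).1) _ ?_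
  intro o
  cases o <;> rfl

end Pool.Agent.Results.MP_524521_nt.ZetaNearEveryPoint
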